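import Pool.Agent.helper44.NLT.Spec

/-!
# Vitali convergence theorem
-/

set_option autoImplicit false

open Complex Metric Set Filter Topology MeasureTheory

noncomputable section

namespace NLT

theorem VIT (hTMO : V3.TMO_stmt) : VIT_stmt := by
  intro G c c₁ r δ B hδ hc₁ hG hB hlim x hx
  rw [tendsto_iff_ultrafilter]
  intro U hU
  obtain ⟨F, hF, hGF⟩ := hTMO U G (ball c r) isOpen_ball (by
    intro y hy
    obtain ⟨s, hs, hsub⟩ := Metric.isOpen_iff.1 isOpen_ball y hy
    refine ⟨s, hs, B, Eventually.of_forall fun k => ⟨(hG k).mono hsub, fun z hz => hB k z (hsub hz)⟩⟩)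
  have hpt : ∀ y ∈ ball c r, Tendsto (fun k => G k y) (U : Filter ℕ) (𝓝 (F y)) := fun y hy =>
    hGF.tendsto_at hy
  have hz : ∀ y ∈ ball c r ∩ ball c₁ δ, F y = 0 := fun y hy =>
    tendsto_nhds_unique (hpt y hy.1) ((hlim y hy.2).mono_left hU)
  have han : AnalyticOnNhd ℂ F (ball c r) := hF.analyticOnNhd isOpen_ball
  have hev : F =ᶠ[𝓝 c₁] fun _ => (0 : ℂ) := by
    filter_upwards [isOpen_ball.mem_nhds hc₁, ball_mem_nhds c₁ hδ] with y h1 h2
    exact hz y ⟨h1, h2⟩
  have h0 : EqOn F (fun _ => (0 : ℂ)) (ball c r) :=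
    han.eqOn_of_preconnected_of_eventuallyEq analyticOnNhd_const
      (convex_ball c r).isPreconnected hc₁ hev
  have h1 := hpt x hx
  rw [h0 hx] at h1
  exact h1

end NLT
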